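import Pool.Agent.Lib.FlatFlag.Defs

/-!
# Homeomorphisms of the members of the flag
-/

set_option autoImplicit false

open Set

namespace Pool.Agent.FlatFlag

variable {n : ℕ}

theorem Q_nonneg (x : Fin (n + 1) → ℝ) : 0 ≤ Q x := Finset.sum_nonneg fun i _ => sq_nonneg (x i)

theorem sq_le_Q (x : Fin (n + 1) → ℝ) (i : Fin (n + 1)) : x i ^ 2 ≤ Q x :=
  Finset.single_le_sum (f := fun i => x i ^ 2) (fun i _ => sq_nonneg (x i)) (Finset.mem_univ i)

theorem continuous_Q : Continuous (Q : (Fin (n + 1) → ℝ) → ℝ) := by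
  unfold Q
  fun_prop

theorem Q_smul (c : ℝ) (x : Fin (n + 1) → ℝ) : Q (c • x) = c ^ 2 * Q x := by
  unfold Q
  rw [Finset.mul_sum]
  refine Finset.sum_congr rfl fun i _ => ?_
  simp only [Pi.smul_apply, smul_eq_mul]
  ring

theorem refl_refl (x : Fin (n + 1) → ℝ) : refl (refl x) = x := by
  funext i
  unfold refl
  split_ifs <;> ring

theorem continuous_refl : Continuous (refl : (Fin (n + 1) → ℝ) → (Fin (n + 1) → ℝ)) := by
  refine continuous_pi fun i => ?_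
  unfold refl
  split_ifs
  · exact continuous_apply i
  · exact (continuous_apply i).neg

theorem Q_update (x : Fin (n + 1) → ℝ) (j : Fin (n + 1)) (s : ℝ) (hj : x j = 0) :
    Q (Function.update x j s) = Q x + s ^ 2 := by
  classical
  unfold Q
  rw [← Finset.add_sum_erase _ _ (Finset.mem_univ j), ← Finset.add_sum_erase _ (fun i => x i ^ 2)
    (Finset.mem_univ j)]
  have h : ∑ i ∈ Finset.univ.erase j, Function.update x j s i ^ 2 =
      ∑ i ∈ Finset.univ.erase j, x i ^ 2 := by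
    refine Finset.sum_congr rfl fun i hi => ?_
    rw [Function.update_of_ne (Finset.ne_of_mem_erase hi)]
  rw [h, Function.update_self, hj]
  ring

/-- `f` is a homeomorphism of `A` with inverse `g` -/
structure HomeoOn (A : Set (Fin (n + 1) → ℝ)) (f g : (Fin (n + 1) → ℝ) → (Fin (n + 1) → ℝ)) :
    Prop where
  cf : ContinuousOn f A
  cg : ContinuousOn g A
  mf : MapsTo f A A
  mg : MapsTo g A A
  gf : ∀ x ∈ A, g (f x) = x
  fg : ∀ x ∈ A, f (g x) = x

theorem HomeoOn.symm {A : Set (Fin (n + 1) → ℝ)} {f g : (Fin (n + 1) → ℝ) → (Fin (n + 1) → ℝ)}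
    (h : HomeoOn A f g) : HomeoOn A g f := ⟨h.cg, h.cf, h.mg, h.mf, h.fg, h.gf⟩

theorem HomeoOn.comp {A : Set (Fin (n + 1) → ℝ)} {f g f' g' : (Fin (n + 1) → ℝ) → (Fin (n + 1) → ℝ)}
    (h : HomeoOn A f g) (h' : HomeoOn A f' g') : HomeoOn A (f' ∘ f) (g ∘ g') where
  cf := h'.cf.comp h.cf h.mf
  cg := h.cg.comp h'.cg h'.mg
  mf := h'.mf.comp h.mf
  mg := h.mg.comp h'.mg
  gf := fun x hx => by
    simp only [Function.comp_apply]
    rw [h'.gf _ (h.mf hx), h.gf x hx]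
  fg := fun x hx => by
    simp only [Function.comp_apply]
    rw [h.fg _ (h'.mg hx), h'.fg x hx]

theorem refl_flag {j : ℕ} {x : Fin (n + 1) → ℝ} (h : x ∈ Flag n j) : refl x ∈ Flag n j := by
  refine ⟨by rw [Q_refl]; exact h.1, ?_⟩
  intro i hi
  unfold refl
  rw [h.2 i hi]
  simp

theorem flag_succ {j : ℕ} (hj : j < n + 1) {x : Fin (n + 1) → ℝ} :
    x ∈ Flag n (j + 1) ↔ x ∈ Flag n j ∧ x ⟨j, hj⟩ = 0 := by
  constructor
  · intro h
    exact ⟨⟨h.1, fun i hi => h.2 i (by omega)⟩, h.2 ⟨j, hj⟩ (by simp)⟩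
  · rintro ⟨h1, h2⟩
    refine ⟨h1.1, fun i hi => ?_⟩
    rcases Nat.lt_or_ge (i : ℕ) j with h | h
    · exact h1.2 i h
    · have : i = ⟨j, hj⟩ := Fin.ext (by simp only; omega)
      rw [this]
      exact h2

/-! ### Extension of a homeomorphism to the next member of the flag -/

/-- the extension, slice by slice -/
noncomputable def ext (j : Fin (n + 1)) (f : (Fin (n + 1) → ℝ) → (Fin (n + 1) → ℝ))
    (x : Fin (n + 1) → ℝ) : Fin (n + 1) → ℝ :=
  Function.update (Real.sqrt (1 - x j ^ 2) •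
    f ((Real.sqrt (1 - x j ^ 2))⁻¹ • Function.update x j 0)) j (x j)

theorem Q_update_zero (x : Fin (n + 1) → ℝ) (j : Fin (n + 1)) :
    Q (Function.update x j 0) = Q x - x j ^ 2 := by
  have h := Q_update (Function.update x j 0) j (x j) (Function.update_self _ _ _)
  rw [Function.update_idem, Function.update_eq_self] at h
  linarith

theorem core_mem {j : ℕ} (hj : j < n + 1) {x : Fin (n + 1) → ℝ} (hx : x ∈ Flag n j) :
    (Real.sqrt (1 - x ⟨j, hj⟩ ^ 2))⁻¹ • Function.update x ⟨j, hj⟩ 0 ∈ Flag n (j + 1) := by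
  have h1 := sq_le_Q x ⟨j, hj⟩
  have h2 := hx.1
  rw [flag_succ hj]
  refine ⟨⟨?_, ?_⟩, ?_⟩
  · rw [Q_smul, Q_update_zero, inv_pow, Real.sq_sqrt (by linarith)]
    rcases eq_or_lt_of_le (show 0 ≤ 1 - x ⟨j, hj⟩ ^ 2 by linarith) with h | h
    · rw [← h]
      simp
    · rw [inv_mul_le_iff₀ h]
      linarith
  · intro i hi
    have hij : i ≠ ⟨j, hj⟩ := by
      rintro rfl
      simp at hi
    simp only [Pi.smul_apply, smul_eq_mul]
    rw [Function.update_of_ne hij, hx.2 i hi, mul_zero]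
  · simp

theorem ext_apply_self (j : Fin (n + 1)) (f : (Fin (n + 1) → ℝ) → (Fin (n + 1) → ℝ))
    (x : Fin (n + 1) → ℝ) : ext j f x j = x j := by
  unfold ext
  rw [Function.update_self]

theorem ext_mapsTo {j : ℕ} (hj : j < n + 1) {f : (Fin (n + 1) → ℝ) → (Fin (n + 1) → ℝ)}
    (hf : MapsTo f (Flag n (j + 1)) (Flag n (j + 1))) :
    MapsTo (ext ⟨j, hj⟩ f) (Flag n j) (Flag n j) := by
  intro x hx
  have h1 := sq_le_Q x ⟨j, hj⟩
  have h2 := hx.1
  have h3 := hf (core_mem hj hx)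
  have h4 := (flag_succ hj).1 h3
  refine ⟨?_, ?_⟩
  · unfold ext
    rw [Q_update _ _ _ (by simp only [Pi.smul_apply, smul_eq_mul]; rw [h4.2, mul_zero]), Q_smul,
      Real.sq_sqrt (by linarith)]
    nlinarith [h4.1.1]
  · intro i hi
    have hij : i ≠ ⟨j, hj⟩ := by
      rintro rfl
      simp at hi
    unfold ext
    rw [Function.update_of_ne hij]
    simp only [Pi.smul_apply, smul_eq_mul]
    rw [h4.1.2 i hi, mul_zero]

theorem ext_ext {j : ℕ} (hj : j < n + 1) {f g : (Fin (n + 1) → ℝ) → (Fin (n + 1) → ℝ)}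
    (hf : MapsTo f (Flag n (j + 1)) (Flag n (j + 1)))
    (hgf : ∀ x ∈ Flag n (j + 1), g (f x) = x) {x : Fin (n + 1) → ℝ} (hx : x ∈ Flag n j) :
    ext ⟨j, hj⟩ g (ext ⟨j, hj⟩ f x) = x := by
  have h1 := sq_le_Q x ⟨j, hj⟩
  have h2 := hx.1
  have h3 := hf (core_mem hj hx)
  have h4 := (flag_succ hj).1 h3
  have h5 : Function.update (ext ⟨j, hj⟩ f x) ⟨j, hj⟩ 0 = Real.sqrt (1 - x ⟨j, hj⟩ ^ 2) •
      f ((Real.sqrt (1 - x ⟨j, hj⟩ ^ 2))⁻¹ • Function.update x ⟨j, hj⟩ 0) := by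
    unfold ext
    rw [Function.update_idem]
    conv_rhs => rw [← Function.update_eq_self (⟨j, hj⟩ : Fin (n + 1)) (Real.sqrt (1 - x ⟨j, hj⟩ ^ 2) •
      f ((Real.sqrt (1 - x ⟨j, hj⟩ ^ 2))⁻¹ • Function.update x ⟨j, hj⟩ 0))]
    congr 1
    simp only [Pi.smul_apply, smul_eq_mul]
    rw [h4.2, mul_zero]
  have h6 : ext ⟨j, hj⟩ g (ext ⟨j, hj⟩ f x) = Function.update (Real.sqrt (1 - x ⟨j, hj⟩ ^ 2) •
      g ((Real.sqrt (1 - x ⟨j, hj⟩ ^ 2))⁻¹ • Function.update (ext ⟨j, hj⟩ f x) ⟨j, hj⟩ 0))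
      ⟨j, hj⟩ (x ⟨j, hj⟩) := by
    conv_lhs => unfold ext
    rw [show Function.update (Real.sqrt (1 - x ⟨j, hj⟩ ^ 2) •
      f ((Real.sqrt (1 - x ⟨j, hj⟩ ^ 2))⁻¹ • Function.update x ⟨j, hj⟩ 0)) ⟨j, hj⟩ (x ⟨j, hj⟩) =
      ext ⟨j, hj⟩ f x from rfl, ext_apply_self]
  rw [h6, h5]
  rcases eq_or_lt_of_le (show 0 ≤ 1 - x ⟨j, hj⟩ ^ 2 by linarith) with h | h
  · rw [← h, Real.sqrt_zero, zero_smul]
    have h7 : Q (Function.update x ⟨j, hj⟩ 0) = 0 := by
      rw [Q_update_zero]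
      have := Q_nonneg (Function.update x ⟨j, hj⟩ 0)
      rw [Q_update_zero] at this
      linarith
    have h8 : ∀ i, Function.update x ⟨j, hj⟩ 0 i = 0 := by
      intro i
      have := sq_le_Q (Function.update x ⟨j, hj⟩ 0) i
      rw [h7] at this
      exact pow_eq_zero_iff (two_ne_zero) |>.1 (le_antisymm this (sq_nonneg _))
    funext i
    by_cases hi : i = ⟨j, hj⟩
    · subst hi
      rw [Function.update_self]
    · rw [Function.update_of_ne hi]
      have := h8 i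
      rw [Function.update_of_ne hi] at this
      rw [this]
      rfl
  · have h9 : Real.sqrt (1 - x ⟨j, hj⟩ ^ 2) ≠ 0 := (Real.sqrt_pos.2 h).ne'
    rw [inv_smul_smul₀ h9, hgf _ (core_mem hj hx), smul_inv_smul₀ h9, Function.update_idem,
      Function.update_eq_self]

theorem ext_bdry {j : ℕ} (hj : j < n + 1) {f : (Fin (n + 1) → ℝ) → (Fin (n + 1) → ℝ)}
    (hf : ∀ x ∈ Flag n (j + 1), Q x = 1 → f x = x) {x : Fin (n + 1) → ℝ} (hx : x ∈ Flag n j)
    (hQ : Q x = 1) : ext ⟨j, hj⟩ f x = x := by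
  have h1 := sq_le_Q x ⟨j, hj⟩
  unfold ext
  rcases eq_or_lt_of_le (show 0 ≤ 1 - x ⟨j, hj⟩ ^ 2 by linarith) with h | h
  · rw [← h, Real.sqrt_zero, zero_smul]
    have h7 : Q (Function.update x ⟨j, hj⟩ 0) = 0 := by
      rw [Q_update_zero]
      linarith
    have h8 : ∀ i, Function.update x ⟨j, hj⟩ 0 i = 0 := by
      intro i
      have := sq_le_Q (Function.update x ⟨j, hj⟩ 0) i
      rw [h7] at this
      exact pow_eq_zero_iff (two_ne_zero) |>.1 (le_antisymm this (sq_nonneg _))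
    funext i
    by_cases hi : i = ⟨j, hj⟩
    · subst hi
      rw [Function.update_self]
    · rw [Function.update_of_ne hi]
      have := h8 i
      rw [Function.update_of_ne hi] at this
      rw [this]
      rfl
  · have h9 : Real.sqrt (1 - x ⟨j, hj⟩ ^ 2) ≠ 0 := (Real.sqrt_pos.2 h).ne'
    rw [hf _ (core_mem hj hx) (by
      rw [Q_smul, Q_update_zero, inv_pow, Real.sq_sqrt h.le, hQ]
      exact inv_mul_cancel₀ h.ne'), smul_inv_smul₀ h9, Function.update_idem,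
      Function.update_eq_self]

theorem ext_flag {j : ℕ} (hj : j < n + 1) {f : (Fin (n + 1) → ℝ) → (Fin (n + 1) → ℝ)}
    (hf : MapsTo f (Flag n (j + 1)) (Flag n (j + 1))) {x : Fin (n + 1) → ℝ}
    (hx : x ∈ Flag n (j + 1)) : ext ⟨j, hj⟩ f x = f x := by
  have h1 := (flag_succ hj).1 hx
  have h2 : Function.update x ⟨j, hj⟩ 0 = x := by
    conv_rhs => rw [← Function.update_eq_self (⟨j, hj⟩ : Fin (n + 1)) x]
    rw [h1.2]
  unfold ext
  rw [h2, h1.2]
  have h3 : Real.sqrt (1 - 0 ^ 2) = 1 := by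
    norm_num
  rw [h3, inv_one, one_smul, one_smul]
  have h4 := ((flag_succ hj).1 (hf hx)).2
  conv_rhs => rw [← Function.update_eq_self (⟨j, hj⟩ : Fin (n + 1)) (f x)]
  rw [h4]

end Pool.Agent.FlatFlag
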