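import Pool.Agent.Lib.FlatFlag.A

/-!
# Continuity of the extension, the two halves
-/

set_option autoImplicit false

open Set Filter Topology

namespace Pool.Agent.FlatFlag

variable {n : ℕ}

theorem ext_cont {j : ℕ} (hj : j < n + 1) {f : (Fin (n + 1) → ℝ) → (Fin (n + 1) → ℝ)}
    (hc : ContinuousOn f (Flag n (j + 1)))
    (hf : MapsTo f (Flag n (j + 1)) (Flag n (j + 1))) :
    ContinuousOn (ext ⟨j, hj⟩ f) (Flag n j) := by
  have hr : Continuous fun x : Fin (n + 1) → ℝ => Real.sqrt (1 - x ⟨j, hj⟩ ^ 2) := by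
    fun_prop
  have hu : Continuous fun x : Fin (n + 1) → ℝ => Function.update x ⟨j, hj⟩ (0 : ℝ) :=
    continuous_id.update _ continuous_const
  intro x hx
  rw [continuousWithinAt_pi]
  intro i
  by_cases hi : i = ⟨j, hj⟩
  · subst hi
    have h1 : (fun x : Fin (n + 1) → ℝ => ext ⟨j, hj⟩ f x ⟨j, hj⟩) = fun x => x ⟨j, hj⟩ := by
      funext x
      exact ext_apply_self _ _ _
    change ContinuousWithinAt (fun x : Fin (n + 1) → ℝ => ext ⟨j, hj⟩ f x ⟨j, hj⟩) _ _
    rw [h1]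
    exact (continuous_apply _).continuousWithinAt
  · have h1 : (fun x : Fin (n + 1) → ℝ => ext ⟨j, hj⟩ f x i) = fun x =>
        Real.sqrt (1 - x ⟨j, hj⟩ ^ 2) *
          f ((Real.sqrt (1 - x ⟨j, hj⟩ ^ 2))⁻¹ • Function.update x ⟨j, hj⟩ 0) i := by
      funext x
      unfold ext
      rw [Function.update_of_ne hi]
      rfl
    change ContinuousWithinAt (fun x : Fin (n + 1) → ℝ => ext ⟨j, hj⟩ f x i) _ _
    rw [h1]
    by_cases h0 : Real.sqrt (1 - x ⟨j, hj⟩ ^ 2) = 0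
    · -- the poles
      have h2 : Tendsto (fun x : Fin (n + 1) → ℝ => Real.sqrt (1 - x ⟨j, hj⟩ ^ 2))
          (𝓝[Flag n j] x) (𝓝 0) := by
        have := hr.continuousAt (x := x)
        have h3 : Tendsto (fun x : Fin (n + 1) → ℝ => Real.sqrt (1 - x ⟨j, hj⟩ ^ 2))
          (𝓝 x) (𝓝 (Real.sqrt (1 - x ⟨j, hj⟩ ^ 2))) := this
        rw [h0] at h3
        exact h3.mono_left nhdsWithin_le_nhds
      have h7 : Tendsto (fun x : Fin (n + 1) → ℝ => Real.sqrt (1 - x ⟨j, hj⟩ ^ 2) *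
          f ((Real.sqrt (1 - x ⟨j, hj⟩ ^ 2))⁻¹ • Function.update x ⟨j, hj⟩ 0) i)
          (𝓝[Flag n j] x) (𝓝 0) := by
        refine squeeze_zero_norm' ?_ h2
        filter_upwards [self_mem_nhdsWithin] with y hy
        have h4 := hf (core_mem hj hy)
        have h5 := sq_le_Q (f ((Real.sqrt (1 - y ⟨j, hj⟩ ^ 2))⁻¹ •
          Function.update y ⟨j, hj⟩ 0)) i
        have h6 : |f ((Real.sqrt (1 - y ⟨j, hj⟩ ^ 2))⁻¹ • Function.update y ⟨j, hj⟩ 0) i| ≤ 1 := by
          rw [← sq_le_one_iff_abs_le_one]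
          exact h5.trans h4.1
        rw [Real.norm_eq_abs, abs_mul, abs_of_nonneg (Real.sqrt_nonneg _)]
        exact mul_le_of_le_one_right (Real.sqrt_nonneg _) h6
      have h8 : (fun x : Fin (n + 1) → ℝ => Real.sqrt (1 - x ⟨j, hj⟩ ^ 2) *
          f ((Real.sqrt (1 - x ⟨j, hj⟩ ^ 2))⁻¹ • Function.update x ⟨j, hj⟩ 0) i) x = 0 := by
        simp only
        rw [h0, zero_mul]
      unfold ContinuousWithinAt
      rw [h8]
      exact h7
    · have h2 : ContinuousWithinAt (fun x : Fin (n + 1) → ℝ =>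
          (Real.sqrt (1 - x ⟨j, hj⟩ ^ 2))⁻¹ • Function.update x ⟨j, hj⟩ (0 : ℝ)) (Flag n j) x := by
        have h9 : ContinuousWithinAt (fun x : Fin (n + 1) → ℝ =>
            (Real.sqrt (1 - x ⟨j, hj⟩ ^ 2))⁻¹) (Flag n j) x := hr.continuousWithinAt.inv₀ h0
        exact h9.smul hu.continuousWithinAt
      have h3 : ContinuousWithinAt (fun x : Fin (n + 1) → ℝ =>
          f ((Real.sqrt (1 - x ⟨j, hj⟩ ^ 2))⁻¹ • Function.update x ⟨j, hj⟩ (0 : ℝ))) (Flag n j) x :=
        ContinuousWithinAt.comp (t := Flag n (j + 1)) (hc _ (core_mem hj hx)) h2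
          fun y hy => core_mem hj hy
      exact hr.continuousWithinAt.mul (continuousWithinAt_pi.1 h3 i)

theorem ext_homeo {j : ℕ} (hj : j < n + 1) {f g : (Fin (n + 1) → ℝ) → (Fin (n + 1) → ℝ)}
    (h : HomeoOn (Flag n (j + 1)) f g) :
    HomeoOn (Flag n j) (ext ⟨j, hj⟩ f) (ext ⟨j, hj⟩ g) where
  cf := ext_cont hj h.cf h.mf
  cg := ext_cont hj h.cg h.mg
  mf := ext_mapsTo hj h.mf
  mg := ext_mapsTo hj h.mg
  gf := fun _ hx => ext_ext hj h.mf h.gf hx
  fg := fun _ hx => ext_ext hj h.mg h.fg hx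

/-- an involution of the `j`-th member of the flag with the right boundary values -/
structure Inv (n j : ℕ) (s : (Fin (n + 1) → ℝ) → (Fin (n + 1) → ℝ)) : Prop where
  c : ContinuousOn s (Flag n j)
  m : MapsTo s (Flag n j) (Flag n j)
  i : ∀ x ∈ Flag n j, s (s x) = x
  b : ∀ x ∈ Flag n j, Q x = 1 → s x = refl x

theorem Inv.conj {j : ℕ} {s f g : (Fin (n + 1) → ℝ) → (Fin (n + 1) → ℝ)} (hs : Inv n j s)
    (h : HomeoOn (Flag n j) f g) (hb : ∀ x ∈ Flag n j, Q x = 1 → f x = x) :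
    Inv n j (fun x => f (s (g x))) where
  c := h.cf.comp (hs.c.comp h.cg h.mg) fun x hx => hs.m (h.mg hx)
  m := fun x hx => h.mf (hs.m (h.mg hx))
  i := fun x hx => by
    rw [h.gf _ (hs.m (h.mg hx)), hs.i _ (h.mg hx), h.fg _ hx]
  b := fun x hx hQ => by
    have h1 : g x = x := by
      conv_lhs => rw [← hb x hx hQ]
      exact h.gf x hx
    rw [h1, hs.b x hx hQ, hb _ (refl_flag hx) (by rw [Q_refl]; exact hQ)]

/-- the sign lemma -/
theorem sign_lemma {j : ℕ} (hj : j < n) {s : (Fin (n + 1) → ℝ) → (Fin (n + 1) → ℝ)}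
    (hs : Inv n j s) (hr : ∀ x ∈ Flag n (j + 1), s x = refl x) {e : ℝ} (he : e ^ 2 = 1)
    {x : Fin (n + 1) → ℝ} (hx : x ∈ Flag n j) (hpos : 0 < e * x ⟨j, by omega⟩) :
    e * s x ⟨j, by omega⟩ < 0 := by
  have hj' : j < n + 1 := by omega
  have hpole : Pi.single (⟨j, hj'⟩ : Fin (n + 1)) e ∈ Flag n j := by
    refine ⟨?_, ?_⟩
    · unfold Q
      rw [Finset.sum_eq_single ⟨j, hj'⟩]
      · rw [Pi.single_eq_same, he]
      · intro b _ hb
        rw [Pi.single_eq_of_ne hb]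
        ring
      · intro h
        exact absurd (Finset.mem_univ _) h
    · intro i hi
      rw [Pi.single_eq_of_ne]
      rintro rfl
      simp at hi
  have hpoleQ : Q (Pi.single (⟨j, hj'⟩ : Fin (n + 1)) e) = 1 := by
    unfold Q
    rw [Finset.sum_eq_single ⟨j, hj'⟩]
    · rw [Pi.single_eq_same, he]
    · intro b _ hb
      rw [Pi.single_eq_of_ne hb]
      ring
    · intro h
      exact absurd (Finset.mem_univ _) h
  have hne : ∀ y ∈ Flag n j, y ⟨j, hj'⟩ ≠ 0 → s y ⟨j, hj'⟩ ≠ 0 := by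
    intro y hy hy0 h
    have h1 : s y ∈ Flag n (j + 1) := (flag_succ hj').2 ⟨hs.m hy, h⟩
    have h2 := hr _ h1
    rw [hs.i y hy] at h2
    have h3 := (flag_succ hj').1 (refl_flag h1)
    rw [← h2] at h3
    exact hy0 h3.2
  -- the path
  have hpath : ∀ t ∈ Icc (0 : ℝ) 1,
      (1 - t) • x + t • (Pi.single (⟨j, hj'⟩ : Fin (n + 1)) e) ∈ Flag n j := by
    intro t ht
    refine ⟨?_, ?_⟩
    · have h1 : Q ((1 - t) • x + t • (Pi.single (⟨j, hj'⟩ : Fin (n + 1)) e)) ≤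
          (1 - t) * Q x + t * Q (Pi.single (⟨j, hj'⟩ : Fin (n + 1)) e) := by
        unfold Q
        rw [Finset.mul_sum, Finset.mul_sum, ← Finset.sum_add_distrib]
        refine Finset.sum_le_sum fun i _ => ?_
        simp only [Pi.add_apply, Pi.smul_apply, smul_eq_mul]
        have h2 : 0 ≤ (1 - t) * t := mul_nonneg (by linarith [ht.2]) ht.1
        nlinarith [mul_nonneg h2 (sq_nonneg (x i - (Pi.single (⟨j, hj'⟩ : Fin (n + 1)) e :
          Fin (n + 1) → ℝ) i))]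
      rw [hpoleQ] at h1
      have h3 := hx.1
      nlinarith [ht.1, ht.2, mul_nonneg (show 0 ≤ 1 - t by linarith [ht.2]) (sub_nonneg.2 h3)]
    · intro i hi
      have h4 := hpole.2 i hi
      simp only [Pi.add_apply, Pi.smul_apply, smul_eq_mul]
      rw [hx.2 i hi, h4]
      ring
  by_contra hcon
  rw [not_lt] at hcon
  have hc : ContinuousOn (fun t : ℝ => e * s ((1 - t) • x +
      t • (Pi.single (⟨j, hj'⟩ : Fin (n + 1)) e)) ⟨j, hj'⟩) (Icc 0 1) := by
    refine continuousOn_const.mul ?_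
    have h1 : ContinuousOn (fun t : ℝ => s ((1 - t) • x +
      t • (Pi.single (⟨j, hj'⟩ : Fin (n + 1)) e))) (Icc 0 1) := by
      refine hs.c.comp ?_ hpath
      fun_prop
    exact continuousOn_pi.1 h1 _
  have h2 := intermediate_value_Icc' (zero_le_one (α := ℝ)) hc
  have h3 : (0 : ℝ) ∈ Icc (e * s ((1 - (1:ℝ)) • x +
      (1:ℝ) • (Pi.single (⟨j, hj'⟩ : Fin (n + 1)) e)) ⟨j, hj'⟩) (e * s ((1 - (0:ℝ)) • x +
      (0:ℝ) • (Pi.single (⟨j, hj'⟩ : Fin (n + 1)) e)) ⟨j, hj'⟩) := by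
    constructor
    · rw [sub_self, zero_smul, zero_add, one_smul, hs.b _ hpole hpoleQ]
      unfold refl
      have h4 : (⟨j, hj'⟩ : Fin (n + 1)) ≠ Fin.last n := by
        intro h
        have := congrArg Fin.val h
        simp at this
        omega
      rw [if_neg h4, Pi.single_eq_same]
      nlinarith
    · rw [sub_zero, one_smul, zero_smul, add_zero]
      exact hcon
  obtain ⟨t, ht, h5⟩ := h2 h3
  simp only at h5
  have h6 : e ≠ 0 := by
    rintro rfl
    norm_num at he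
  have h7 := (mul_eq_zero.1 h5).resolve_left h6
  refine hne _ (hpath t ht) ?_ h7
  intro h8
  simp only [Pi.add_apply, Pi.smul_apply, smul_eq_mul, Pi.single_eq_same] at h8
  have h9 : (1 - t) * (e * x ⟨j, hj'⟩) + t * e ^ 2 = 0 := by
    have := congrArg (fun z => e * z) h8
    simp only [mul_zero] at this
    linarith
  rw [he] at h9
  rcases eq_or_lt_of_le ht.1 with h | h
  · rw [← h] at h9
    simp at h9
    rcases h9 with h9 | h9
    · exact h6 h9
    · rw [h9] at hpos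
      simp at hpos
  · have := mul_nonneg (show 0 ≤ 1 - t by linarith [ht.2]) hpos.le
    linarith

end Pool.Agent.FlatFlag
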