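import Pool.Agent.Lib.FlatFlag.B

/-!
# The induction along the flag
-/

set_option autoImplicit false

open Set Filter Topology

namespace Pool.Agent.FlatFlag

variable {n : ℕ}

theorem refl_apply_of_lt {j : ℕ} (hj : j < n) (x : Fin (n + 1) → ℝ) :
    refl x ⟨j, by omega⟩ = - x ⟨j, by omega⟩ := by
  unfold refl
  rw [if_neg]
  intro h
  have := congrArg Fin.val h
  simp at this
  omega

/-- an involution which is the linear one on the next member of the flag -/
theorem half {j : ℕ} (hj : j < n) {s : (Fin (n + 1) → ℝ) → (Fin (n + 1) → ℝ)}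
    (hs : Inv n j s) (hr : ∀ x ∈ Flag n (j + 1), s x = refl x) :
    ∃ f g, HomeoOn (Flag n j) f g ∧ (∀ x ∈ Flag n j, Q x = 1 → f x = x) ∧
      ∀ x ∈ Flag n j, f (s x) = refl (f x) := by
  classical
  have hj' : j < n + 1 := by omega
  have hclosed : IsClosed (Flag n j) := by
    have h1 : Flag n j = {x | Q x ≤ 1} ∩ ⋂ i : Fin (n + 1), {x | (i : ℕ) < j → x i = 0} := by
      ext x
      simp only [Flag, mem_inter_iff, mem_iInter, mem_ofPred_eq]
    rw [h1]
    refine (isClosed_le continuous_Q continuous_const).inter (isClosed_iInter fun i => ?_)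
    by_cases hi : (i : ℕ) < j
    · simp only [hi, forall_true_left]
      exact isClosed_eq (continuous_apply i) continuous_const
    · simp only [hi, false_imp_iff]
      exact isClosed_univ
  have hpos : ∀ x ∈ Flag n j, 0 < x ⟨j, hj'⟩ → s x ⟨j, hj'⟩ < 0 := by
    intro x hx h
    have := sign_lemma hj hs hr (e := 1) (by norm_num) hx (by rw [one_mul]; exact h)
    rwa [one_mul] at this
  have hneg : ∀ x ∈ Flag n j, x ⟨j, hj'⟩ < 0 → 0 < s x ⟨j, hj'⟩ := by
    intro x hx h
    have := sign_lemma hj hs hr (e := -1) (by norm_num) hx (by linarith)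
    linarith
  have hzero : ∀ x ∈ Flag n j, x ⟨j, hj'⟩ = 0 → s x = refl x := by
    intro x hx h
    exact hr x ((flag_succ hj').2 ⟨hx, h⟩)
  have hsz : ∀ x ∈ Flag n j, x ⟨j, hj'⟩ = 0 → s x ⟨j, hj'⟩ = 0 := by
    intro x hx h
    rw [hzero x hx h, refl_apply_of_lt hj, h, neg_zero]
  have hrm : ∀ x ∈ Flag n j, refl x ∈ Flag n j := fun x hx => refl_flag hx
  have hU : Flag n j = (Flag n j ∩ {x | 0 ≤ x ⟨j, hj'⟩}) ∪ (Flag n j ∩ {x | x ⟨j, hj'⟩ ≤ 0}) := by
    ext x
    constructor
    · intro hx
      rcases le_total 0 (x ⟨j, hj'⟩) with h | h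
      · exact Or.inl ⟨hx, h⟩
      · exact Or.inr ⟨hx, h⟩
    · rintro (h | h)
      · exact h.1
      · exact h.1
  have hc1 : IsClosed (Flag n j ∩ {x | 0 ≤ x ⟨j, hj'⟩}) :=
    hclosed.inter (isClosed_le continuous_const (continuous_apply _))
  have hc2 : IsClosed (Flag n j ∩ {x | x ⟨j, hj'⟩ ≤ 0}) :=
    hclosed.inter (isClosed_le (continuous_apply _) continuous_const)
  refine ⟨fun x => if 0 ≤ x ⟨j, hj'⟩ then x else refl (s x),
    fun x => if 0 ≤ x ⟨j, hj'⟩ then x else s (refl x), ⟨?_, ?_, ?_, ?_, ?_, ?_⟩, ?_, ?_⟩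
  · rw [hU]
    refine ContinuousOn.union_of_isClosed ?_ ?_ hc1 hc2
    · exact continuousOn_id.congr fun x hx => if_pos hx.2
    · have h1 : ContinuousOn (fun x => refl (s x)) (Flag n j ∩ {x | x ⟨j, hj'⟩ ≤ 0}) :=
        continuous_refl.comp_continuousOn (hs.c.mono inter_subset_left)
      refine h1.congr fun x hx => ?_
      have hx2 : x ⟨j, hj'⟩ ≤ 0 := hx.2
      rcases eq_or_lt_of_le hx2 with h | h
      · simp only
        rw [if_pos h.ge, hzero x hx.1 h, refl_refl]
      · exact if_neg (not_le.2 h)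
  · rw [hU]
    refine ContinuousOn.union_of_isClosed ?_ ?_ hc1 hc2
    · exact continuousOn_id.congr fun x hx => if_pos hx.2
    · have h1 : ContinuousOn (fun x => s (refl x)) (Flag n j ∩ {x | x ⟨j, hj'⟩ ≤ 0}) :=
        hs.c.comp continuous_refl.continuousOn fun x hx => hrm x hx.1
      refine h1.congr fun x hx => ?_
      have hx2 : x ⟨j, hj'⟩ ≤ 0 := hx.2
      rcases eq_or_lt_of_le hx2 with h | h
      · simp only
        rw [if_pos h.ge, hzero _ (hrm x hx.1) (by rw [refl_apply_of_lt hj, h, neg_zero]), refl_refl]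
      · exact if_neg (not_le.2 h)
  · intro x hx
    simp only
    split_ifs with h
    · exact hx
    · exact hrm _ (hs.m hx)
  · intro x hx
    simp only
    split_ifs with h
    · exact hx
    · exact hs.m (hrm _ hx)
  · intro x hx
    by_cases h : 0 ≤ x ⟨j, hj'⟩
    · simp only [if_pos h]
    · have h1 := hneg x hx (not_le.1 h)
      have h2 : ¬ 0 ≤ refl (s x) ⟨j, hj'⟩ := by
        rw [refl_apply_of_lt hj]
        linarith
      simp only [if_neg h]
      rw [if_neg h2, refl_refl, hs.i x hx]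
  · intro x hx
    by_cases h : 0 ≤ x ⟨j, hj'⟩
    · simp only [if_pos h]
    · have h0 : 0 < refl x ⟨j, hj'⟩ := by
        rw [refl_apply_of_lt hj]
        linarith
      have h1 := hpos _ (hrm x hx) h0
      have h2 : ¬ 0 ≤ s (refl x) ⟨j, hj'⟩ := not_le.2 h1
      simp only [if_neg h]
      rw [if_neg h2, hs.i _ (hrm x hx), refl_refl]
  · intro x hx hQ
    simp only
    split_ifs with h
    · rfl
    · rw [hs.b x hx hQ, refl_refl]
  · intro x hx
    rcases lt_trichotomy (x ⟨j, hj'⟩) 0 with h | h | h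
    · have h1 := hneg x hx h
      simp only
      rw [if_pos h1.le, if_neg (not_le.2 h), refl_refl]
    · have h1 := hsz x hx h
      simp only
      rw [if_pos h1.ge, if_pos h.ge, hzero x hx h]
    · have h1 := hpos x hx h
      simp only
      rw [if_neg (not_le.2 h1), if_pos h.le, hs.i x hx]

/-- the last member of the flag: an involution of an interval which fixes the ends -/
theorem base {s : (Fin (n + 1) → ℝ) → (Fin (n + 1) → ℝ)} (hs : Inv n n s) :
    ∀ x ∈ Flag n n, s x = x ∧ refl x = x := by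
  classical
  have hpt : ∀ x ∈ Flag n n, x = Pi.single (Fin.last n) (x (Fin.last n)) := by
    intro x hx
    funext i
    by_cases hi : i = Fin.last n
    · subst hi
      rw [Pi.single_eq_same]
    · rw [Pi.single_eq_of_ne hi]
      exact hx.2 i (lt_of_le_of_ne (Nat.lt_succ_iff.1 i.2) fun h => hi (Fin.ext h))
  have hQs : ∀ t : ℝ, Q (Pi.single (Fin.last n) t : Fin (n + 1) → ℝ) = t ^ 2 := by
    intro t
    unfold Q
    rw [Finset.sum_eq_single (Fin.last n)]
    · rw [Pi.single_eq_same]
    · intro b _ hb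
      rw [Pi.single_eq_of_ne hb]
      ring
    · intro h
      exact absurd (Finset.mem_univ _) h
  have hmem : ∀ t ∈ Icc (-1 : ℝ) 1, (Pi.single (Fin.last n) t : Fin (n + 1) → ℝ) ∈ Flag n n := by
    intro t ht
    refine ⟨?_, ?_⟩
    · rw [hQs, sq_le_one_iff_abs_le_one, abs_le]
      exact ht
    · intro i hi
      rw [Pi.single_eq_of_ne]
      rintro rfl
      simp at hi
  have hIcc : ∀ x ∈ Flag n n, x (Fin.last n) ∈ Icc (-1 : ℝ) 1 := by
    intro x hx
    have := (sq_le_Q x (Fin.last n)).trans hx.1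
    rw [sq_le_one_iff_abs_le_one, abs_le] at this
    exact this
  have hrefl : ∀ x ∈ Flag n n, refl x = x := by
    intro x hx
    funext i
    unfold refl
    split_ifs with h
    · rfl
    · rw [hx.2 i (lt_of_le_of_ne (Nat.lt_succ_iff.1 i.2) fun h' => h (Fin.ext h')), neg_zero]
  have hc : ContinuousOn (fun t : ℝ => s (Pi.single (Fin.last n) t) (Fin.last n)) (Icc (-1) 1) := by
    have h1 : ContinuousOn (fun t : ℝ => s (Pi.single (Fin.last n) t)) (Icc (-1) 1) := by
      refine hs.c.comp ?_ hmem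
      have h2 : Continuous fun t : ℝ => (Pi.single (Fin.last n) t : Fin (n + 1) → ℝ) := by
        refine continuous_pi fun i => ?_
        by_cases hi : i = Fin.last n
        · subst hi
          simp only [Pi.single_eq_same]
          exact continuous_id
        · simp only [Pi.single_eq_of_ne hi]
          exact continuous_const
      exact h2.continuousOn
    exact continuousOn_pi.1 h1 _
  have hval : ∀ t ∈ Icc (-1 : ℝ) 1, s (Pi.single (Fin.last n) t) =
      Pi.single (Fin.last n) (s (Pi.single (Fin.last n) t) (Fin.last n)) := fun t ht =>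
    hpt _ (hs.m (hmem t ht))
  have hhh : ∀ t ∈ Icc (-1 : ℝ) 1, s (Pi.single (Fin.last n)
      (s (Pi.single (Fin.last n) t) (Fin.last n))) (Fin.last n) = t := by
    intro t ht
    rw [← hval t ht, hs.i _ (hmem t ht), Pi.single_eq_same]
  have hinj : InjOn (fun t : ℝ => s (Pi.single (Fin.last n) t) (Fin.last n)) (Icc (-1) 1) := by
    intro t ht u hu h
    simp only at h
    rw [← hhh t ht, ← hhh u hu, h]
  have hend : ∀ t : ℝ, t ^ 2 = 1 → s (Pi.single (Fin.last n) t) (Fin.last n) = t := by
    intro t ht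
    have h1 : t ∈ Icc (-1 : ℝ) 1 := by
      rw [Set.mem_Icc, ← abs_le, ← sq_le_one_iff_abs_le_one]
      exact ht.le
    rw [hs.b _ (hmem t h1) (by rw [hQs]; exact ht), hrefl _ (hmem t h1), Pi.single_eq_same]
  have hmono : StrictMonoOn (fun t : ℝ => s (Pi.single (Fin.last n) t) (Fin.last n))
      (Icc (-1) 1) := by
    refine ContinuousOn.strictMonoOn_of_injOn_Icc (by norm_num) ?_ hc hinj
    rw [hend (-1) (by norm_num), hend 1 (by norm_num)]
    norm_num
  intro x hx
  refine ⟨?_, hrefl x hx⟩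
  have ht := hIcc x hx
  have hst := hIcc _ (hs.m hx)
  have hx1 := hpt x hx
  have h2 := hhh _ ht
  rw [← hx1] at h2
  have h3 : s x (Fin.last n) = x (Fin.last n) := by
    rcases lt_trichotomy (s x (Fin.last n)) (x (Fin.last n)) with h | h | h
    · have h4 := hmono hst ht h
      simp only at h4
      rw [h2, ← hx1] at h4
      linarith
    · exact h
    · have h4 := hmono ht hst h
      simp only at h4
      rw [h2, ← hx1] at h4
      linarith
  rw [hpt _ (hs.m hx), h3]
  exact hx1.symm

/-- the induction: an involution which leaves the flag invariant is conjugate to the linear one -/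
theorem conj_of_flag (m : ℕ) : ∀ j, j + m = n → ∀ s : (Fin (n + 1) → ℝ) → (Fin (n + 1) → ℝ),
    Inv n j s → (∀ i, j ≤ i → i ≤ n → MapsTo s (Flag n i) (Flag n i)) →
    ∃ f g, HomeoOn (Flag n j) f g ∧ (∀ x ∈ Flag n j, Q x = 1 → f x = x) ∧
      ∀ x ∈ Flag n j, f (s x) = refl (f x) := by
  induction m with
  | zero =>
    intro j hj s hs _
    have hj' : j = n := by omega
    subst hj'
    refine ⟨id, id, ⟨continuousOn_id, continuousOn_id, fun x hx => hx, fun x hx => hx,
      fun x _ => rfl, fun x _ => rfl⟩, fun x _ _ => rfl, ?_⟩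
    intro x hx
    have h := base hs x hx
    simp only [id]
    rw [h.1, h.2]
  | succ m ih =>
    intro j hj s hs hflag
    have hjn : j < n := by omega
    have hj' : j < n + 1 := by omega
    have hsub : Flag n (j + 1) ⊆ Flag n j := fun x hx => ((flag_succ hj').1 hx).1
    have hs1 : Inv n (j + 1) s := ⟨hs.c.mono hsub, hflag (j + 1) (by omega) (by omega),
      fun x hx => hs.i x (hsub hx), fun x hx => hs.b x (hsub hx)⟩
    obtain ⟨f, g, hfg, hb, he⟩ := ih (j + 1) (by omega) s hs1 fun i hi hi' => hflag i (by omega) hi'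
    have hF := ext_homeo hj' hfg
    have hFb : ∀ x ∈ Flag n j, Q x = 1 → ext ⟨j, hj'⟩ f x = x := fun x hx hQ =>
      ext_bdry hj' hb hx hQ
    have hs2 := hs.conj hF hFb
    obtain ⟨f2, g2, h2, hb2, he2⟩ := half hjn hs2 (by
      intro x hx
      rw [ext_flag hj' hfg.mg hx, ext_flag hj' hfg.mf (hs1.m (hfg.mg hx)), he _ (hfg.mg hx),
        hfg.fg x hx])
    refine ⟨f2 ∘ ext ⟨j, hj'⟩ f, ext ⟨j, hj'⟩ g ∘ g2, hF.comp h2, ?_, ?_⟩
    · intro x hx hQ
      simp only [Function.comp_apply]
      rw [hFb x hx hQ, hb2 x hx hQ]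
    · intro x hx
      simp only [Function.comp_apply]
      have h3 := he2 _ (hF.mf hx)
      rw [hF.gf x hx] at h3
      exact h3

end Pool.Agent.FlatFlag
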