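import Pool.Agent.Lib.FlatFlag.C

/-!
# Cones, and the equivalence
-/

set_option autoImplicit false

open Set Filter Topology

namespace Pool.Agent.FlatFlag

variable {n : ℕ}

theorem Q_eq_zero {x : Fin (n + 1) → ℝ} (h : Q x = 0) : x = 0 := by
  funext i
  have h1 := sq_le_Q x i
  rw [h] at h1
  exact pow_eq_zero_iff (two_ne_zero) |>.1 (le_antisymm h1 (sq_nonneg _))

/-- the cone of a map of the sphere -/
noncomputable def cone (f : (Fin (n + 1) → ℝ) → (Fin (n + 1) → ℝ)) (x : Fin (n + 1) → ℝ) :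
    Fin (n + 1) → ℝ := Real.sqrt (Q x) • f ((Real.sqrt (Q x))⁻¹ • x)

theorem Q_dir {x : Fin (n + 1) → ℝ} (h : Q x ≠ 0) : Q ((Real.sqrt (Q x))⁻¹ • x) = 1 := by
  rw [Q_smul, inv_pow, Real.sq_sqrt (Q_nonneg x)]
  exact inv_mul_cancel₀ h

theorem Q_cone {f : (Fin (n + 1) → ℝ) → (Fin (n + 1) → ℝ)} (hf : ∀ x, Q x = 1 → Q (f x) = 1)
    (x : Fin (n + 1) → ℝ) : Q (cone f x) = Q x := by
  unfold cone
  by_cases h : Q x = 0
  · rw [Q_smul, h]
    simp
  · rw [Q_smul, hf _ (Q_dir h), Real.sq_sqrt (Q_nonneg x), mul_one]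

theorem cone_cone {f g : (Fin (n + 1) → ℝ) → (Fin (n + 1) → ℝ)} (hf : ∀ x, Q x = 1 → Q (f x) = 1)
    (hgf : ∀ x, Q x = 1 → g (f x) = x) (x : Fin (n + 1) → ℝ) : cone g (cone f x) = x := by
  by_cases h : Q x = 0
  · have h1 : x = 0 := Q_eq_zero h
    have h2 : Q (cone g (cone f x)) = Q (cone f x) := by
      have h3 : Q (cone f x) = 0 := by rw [Q_cone hf, h]
      rw [h3]
      unfold cone at *
      rw [Q_smul, h3]
      simp
    rw [Q_cone hf, h] at h2
    rw [Q_eq_zero h2, h1]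
  · have h1 : Real.sqrt (Q x) ≠ 0 := (Real.sqrt_pos.2 (lt_of_le_of_ne (Q_nonneg x)
      (Ne.symm h))).ne'
    have h2 : Q (cone f x) = Q x := Q_cone hf x
    conv_lhs => unfold cone
    rw [show Real.sqrt (Q x) • f ((Real.sqrt (Q x))⁻¹ • x) = cone f x from rfl, h2]
    unfold cone
    rw [inv_smul_smul₀ h1, hgf _ (Q_dir h), smul_inv_smul₀ h1]

theorem cone_sphere (f : (Fin (n + 1) → ℝ) → (Fin (n + 1) → ℝ)) {x : Fin (n + 1) → ℝ}
    (h : Q x = 1) : cone f x = f x := by
  unfold cone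
  rw [h, Real.sqrt_one, inv_one, one_smul, one_smul]

theorem refl_smul (c : ℝ) (x : Fin (n + 1) → ℝ) : refl (c • x) = c • refl x := by
  funext i
  unfold refl
  simp only [Pi.smul_apply, smul_eq_mul]
  split_ifs <;> ring

theorem cone_refl {f : (Fin (n + 1) → ℝ) → (Fin (n + 1) → ℝ)}
    (hf : ∀ x, Q x = 1 → f (refl x) = refl (f x)) (x : Fin (n + 1) → ℝ) :
    cone f (refl x) = refl (cone f x) := by
  unfold cone
  rw [Q_refl, refl_smul, ← refl_smul]
  by_cases h : Q x = 0
  · rw [h, Real.sqrt_zero, zero_smul, zero_smul]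
  · rw [hf _ (Q_dir h)]

theorem cone_cont {f : (Fin (n + 1) → ℝ) → (Fin (n + 1) → ℝ)}
    (hc : ContinuousOn f {x | Q x = 1}) (hf : ∀ x, Q x = 1 → Q (f x) = 1) :
    Continuous (cone f) := by
  have hr : Continuous fun x : Fin (n + 1) → ℝ => Real.sqrt (Q x) :=
    Real.continuous_sqrt.comp continuous_Q
  rw [continuous_iff_continuousAt]
  intro x
  by_cases h : Q x = 0
  · rw [continuousAt_pi]
    intro i
    have h2 : Tendsto (fun y : Fin (n + 1) → ℝ => Real.sqrt (Q y)) (𝓝 x) (𝓝 0) := by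
      have h3 : Tendsto (fun y : Fin (n + 1) → ℝ => Real.sqrt (Q y)) (𝓝 x)
        (𝓝 (Real.sqrt (Q x))) := hr.continuousAt
      rw [h, Real.sqrt_zero] at h3
      exact h3
    have h7 : Tendsto (fun y : Fin (n + 1) → ℝ => cone f y i) (𝓝 x) (𝓝 0) := by
      refine squeeze_zero_norm' ?_ h2
      filter_upwards with y
      have h5 := sq_le_Q (cone f y) i
      rw [Q_cone hf] at h5
      rw [Real.norm_eq_abs]
      exact Real.abs_le_sqrt h5
    have h8 : (fun y : Fin (n + 1) → ℝ => cone f y i) x = 0 := by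
      have h9 : Q (cone f x) = 0 := by rw [Q_cone hf, h]
      simp only
      rw [Q_eq_zero h9]
      rfl
    unfold ContinuousAt
    rw [h8]
    exact h7
  · have h1 : Real.sqrt (Q x) ≠ 0 := (Real.sqrt_pos.2 (lt_of_le_of_ne (Q_nonneg x)
      (Ne.symm h))).ne'
    have hopen : {y : Fin (n + 1) → ℝ | Q y ≠ 0} ∈ 𝓝 x :=
      (isOpen_ne_fun continuous_Q continuous_const).mem_nhds h
    have h2 : ContinuousAt (fun y : Fin (n + 1) → ℝ => (Real.sqrt (Q y))⁻¹ • y) x := by
      have h9 : ContinuousAt (fun y : Fin (n + 1) → ℝ => (Real.sqrt (Q y))⁻¹) x :=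
        hr.continuousAt.inv₀ h1
      exact h9.smul continuousAt_id
    have h3 : ContinuousWithinAt (fun y : Fin (n + 1) → ℝ => f ((Real.sqrt (Q y))⁻¹ • y))
        {y | Q y ≠ 0} x :=
      ContinuousWithinAt.comp (t := {x | Q x = 1}) (hc _ (Q_dir h)) h2.continuousWithinAt
        fun y hy => Q_dir hy
    have h4 := h3.continuousAt hopen
    exact hr.continuousAt.smul h4

/-- the extension of a map of the ball by the identity -/
noncomputable def glob (f : Ball n → Ball n) (x : Fin (n + 1) → ℝ) : Fin (n + 1) → ℝ := by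
  classical
  exact if h : x ∈ Ball n then (f ⟨x, h⟩ : Fin (n + 1) → ℝ) else x

theorem glob_apply (f : Ball n → Ball n) (x : Ball n) : glob f x.1 = (f x).1 := by
  unfold glob
  rw [dif_pos x.2]

theorem glob_cont {f : Ball n → Ball n} (hf : Continuous f) : ContinuousOn (glob f) (Ball n) := by
  rw [continuousOn_iff_continuous_domRestrict]
  have h : (Ball n).domRestrict (glob f) = fun x => (f x).1 := by
    funext x
    exact glob_apply f x
  rw [h]
  exact continuous_subtype_val.comp hf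

/-- a homeomorphism of the ball from a pair of maps -/
noncomputable def mkHomeo {f g : (Fin (n + 1) → ℝ) → (Fin (n + 1) → ℝ)} (h : HomeoOn (Ball n) f g) :
    Ball n ≃ₜ Ball n where
  toFun x := ⟨f x.1, h.mf x.2⟩
  invFun x := ⟨g x.1, h.mg x.2⟩
  left_inv x := Subtype.ext (h.gf x.1 x.2)
  right_inv x := Subtype.ext (h.fg x.1 x.2)
  continuous_toFun := (continuousOn_iff_continuous_domRestrict.1 h.cf).subtype_mk _
  continuous_invFun := (continuousOn_iff_continuous_domRestrict.1 h.cg).subtype_mk _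

theorem flag_zero : Flag n 0 = Ball n := by
  ext x
  constructor
  · exact fun h => h.1
  · exact fun h => ⟨h, fun i hi => absurd hi (Nat.not_lt_zero _)⟩

/-- an invariant flat flag gives a conjugacy -/
theorem conj_of_flat_flag (t : Ball n → Ball n) (hc : Continuous t) (hi : ∀ x, t (t x) = x)
    (hb : ∀ x : Ball n, Q x.1 = 1 → (t x).1 = refl x.1) (p : Ball n ≃ₜ Ball n)
    (hp : ∀ x : Ball n, Q x.1 = 1 → p x = x)
    (hflag : ∀ j ≤ n, ∀ x : Ball n, (∀ i : Fin (n + 1), (i : ℕ) < j → x.1 i = 0) →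
      ∀ i : Fin (n + 1), (i : ℕ) < j → (p.symm (t (p x))).1 i = 0) :
    ∃ f : Ball n ≃ₜ Ball n, (∀ x : Ball n, Q x.1 = 1 → f x = x) ∧
      ∀ x, (f (t x)).1 = refl (f x).1 := by
  have hps : ∀ x : Ball n, Q x.1 = 1 → p.symm x = x := by
    intro x hx
    conv_lhs => rw [← hp x hx]
    exact p.symm_apply_apply x
  have hs : Inv n 0 (glob fun x => p.symm (t (p x))) := by
    rw [show Inv n 0 (glob fun x => p.symm (t (p x))) ↔ _ from Iff.rfl]
    refine ⟨?_, ?_, ?_, ?_⟩
    · rw [flag_zero]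
      exact glob_cont (p.symm.continuous.comp (hc.comp p.continuous))
    · rw [flag_zero]
      intro x hx
      rw [show x = (⟨x, hx⟩ : Ball n).1 from rfl, glob_apply]
      exact Subtype.coe_prop _
    · rw [flag_zero]
      intro x hx
      rw [show x = (⟨x, hx⟩ : Ball n).1 from rfl, glob_apply, glob_apply, p.apply_symm_apply, hi,
        p.symm_apply_apply]
    · rw [flag_zero]
      intro x hx hQ
      rw [show x = (⟨x, hx⟩ : Ball n).1 from rfl, glob_apply, hp ⟨x, hx⟩ hQ]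
      have h1 := hb ⟨x, hx⟩ hQ
      have h2 : Q (t ⟨x, hx⟩).1 = 1 := by
        rw [h1, Q_refl]
        exact hQ
      rw [hps _ h2]
      exact h1
  obtain ⟨f, g, hfg, hfb, hfe⟩ := conj_of_flag n 0 (by omega) _ hs (by
    intro i _ hin x hx
    have hxB : x ∈ Ball n := hx.1
    rw [show x = (⟨x, hxB⟩ : Ball n).1 from rfl, glob_apply]
    exact ⟨(p.symm (t (p ⟨x, hxB⟩))).2, fun k hk => hflag i hin ⟨x, hxB⟩ hx.2 k hk⟩)
  rw [flag_zero] at hfg hfb hfe
  refine ⟨p.symm.trans (mkHomeo hfg), ?_, ?_⟩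
  · intro x hx
    refine Subtype.ext ?_
    change f (p.symm x).1 = x.1
    rw [hps x hx, hfb x.1 x.2 hx]
  · intro x
    change f (p.symm (t x)).1 = refl (f (p.symm x).1)
    rw [← hfe _ (p.symm x).2, glob_apply, p.apply_symm_apply]

/-- a conjugacy which preserves the sphere can be replaced by one which fixes it pointwise -/
theorem conj_rel (t : Ball n → Ball n)
    (hb : ∀ x : Ball n, Q x.1 = 1 → (t x).1 = refl x.1) (f : Ball n ≃ₜ Ball n)
    (hf : ∀ x : Ball n, Q (f x).1 = 1 ↔ Q x.1 = 1) (he : ∀ x, (f (t x)).1 = refl (f x).1) :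
    ∃ f : Ball n ≃ₜ Ball n, (∀ x : Ball n, Q x.1 = 1 → f x = x) ∧
      ∀ x, (f (t x)).1 = refl (f x).1 := by
  have hmem : ∀ x : Fin (n + 1) → ℝ, Q x = 1 → x ∈ Ball n := fun x hx => hx.le
  have hF : ∀ x : Fin (n + 1) → ℝ, Q x = 1 → Q (glob f x) = 1 := by
    intro x hx
    rw [show x = (⟨x, hmem x hx⟩ : Ball n).1 from rfl, glob_apply, hf]
    exact hx
  have hG : ∀ x : Fin (n + 1) → ℝ, Q x = 1 → Q (glob f.symm x) = 1 := by
    intro x hx
    rw [show x = (⟨x, hmem x hx⟩ : Ball n).1 from rfl, glob_apply, ← hf, f.apply_symm_apply]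
    exact hx
  have hGF : ∀ x : Fin (n + 1) → ℝ, Q x = 1 → glob f.symm (glob f x) = x := by
    intro x hx
    rw [show x = (⟨x, hmem x hx⟩ : Ball n).1 from rfl, glob_apply, glob_apply,
      f.symm_apply_apply]
  have hFG : ∀ x : Fin (n + 1) → ℝ, Q x = 1 → glob f (glob f.symm x) = x := by
    intro x hx
    rw [show x = (⟨x, hmem x hx⟩ : Ball n).1 from rfl, glob_apply, glob_apply,
      f.apply_symm_apply]
  have hsub : {x : Fin (n + 1) → ℝ | Q x = 1} ⊆ Ball n := fun x hx => hmem x hx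
  have hFe : ∀ x : Fin (n + 1) → ℝ, Q x = 1 → glob f (refl x) = refl (glob f x) := by
    intro x hx
    have h1 := hb ⟨x, hmem x hx⟩ hx
    have h2 := he ⟨x, hmem x hx⟩
    rw [← glob_apply f ⟨x, hmem x hx⟩, ← glob_apply f (t ⟨x, hmem x hx⟩), h1] at h2
    exact h2
  have hGe : ∀ x : Fin (n + 1) → ℝ, Q x = 1 → glob f.symm (refl x) = refl (glob f.symm x) := by
    intro x hx
    have h1 := hFe _ (hG x hx)
    rw [hFG x hx] at h1
    rw [← h1]
    exact hGF _ (by rw [Q_refl]; exact hG x hx)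
  have hK : HomeoOn (Ball n) (cone (glob f.symm)) (cone (glob f)) :=
    ⟨(cone_cont ((glob_cont f.symm.continuous).mono hsub) hG).continuousOn,
      (cone_cont ((glob_cont f.continuous).mono hsub) hF).continuousOn,
      fun x hx => by
        have h1 : Q x ≤ 1 := hx
        change Q _ ≤ 1
        rw [Q_cone hG]
        exact h1,
      fun x hx => by
        have h1 : Q x ≤ 1 := hx
        change Q _ ≤ 1
        rw [Q_cone hF]
        exact h1,
      fun x _ => cone_cone hG hFG x, fun x _ => cone_cone hF hGF x⟩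
  refine ⟨f.trans (mkHomeo hK), ?_, ?_⟩
  · intro x hx
    refine Subtype.ext ?_
    change cone (glob f.symm) (f x).1 = x.1
    rw [cone_sphere _ ((hf x).2 hx), glob_apply, f.symm_apply_apply]
  · intro x
    change cone (glob f.symm) (f (t x)).1 = refl (cone (glob f.symm) (f x).1)
    rw [he, cone_refl hGe]

end Pool.Agent.FlatFlag
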