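import Mathlib

/-!
# Involutions of a ball: definitions
-/

set_option autoImplicit false

namespace Pool.Agent.FlatFlag

/-- the square of the Euclidean norm of a vector with `n + 1` coordinates -/
def Q {n : ℕ} (x : Fin (n + 1) → ℝ) : ℝ := ∑ i, x i ^ 2

/-- the closed unit ball of Euclidean space of dimension `n + 1` -/
def Ball (n : ℕ) : Set (Fin (n + 1) → ℝ) := {x | Q x ≤ 1}

/-- the linear involution which changes the sign of all coordinates but the last one -/
def refl {n : ℕ} (x : Fin (n + 1) → ℝ) : Fin (n + 1) → ℝ :=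
  fun i => if i = Fin.last n then x i else - x i

theorem Q_refl {n : ℕ} (x : Fin (n + 1) → ℝ) : Q (refl x) = Q x := by
  unfold Q refl
  refine Finset.sum_congr rfl fun i _ => ?_
  split_ifs <;> ring

/-- the linear involution of the ball (the standard involution) -/
def std {n : ℕ} (x : Ball n) : Ball n :=
  ⟨refl x.1, by
    have h : Q x.1 ≤ 1 := x.2
    change Q (refl x.1) ≤ 1
    rw [Q_refl]
    exact h⟩

/-- the points of the ball whose first `j` coordinates are zero (a ball of dimension
`n + 1 - j`) -/
def Sub (n j : ℕ) : Set (Ball n) := {x | ∀ i : Fin (n + 1), (i : ℕ) < j → x.1 i = 0}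

/-- the same as a subset of Euclidean space -/
def Flag (n j : ℕ) : Set (Fin (n + 1) → ℝ) := {x | Q x ≤ 1 ∧ ∀ i : Fin (n + 1), (i : ℕ) < j → x i = 0}

end Pool.Agent.FlatFlag
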