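import Pool.Agent.Lib.FlatFlag.D

/-!
# Involutions which are close to the linear one
-/

set_option autoImplicit false

open Set Filter Topology

namespace Pool.Agent.FlatFlag

variable {n : ℕ}

theorem isCompact_Ball : IsCompact (Ball n) := by
  refine Metric.isCompact_of_isClosed_isBounded (isClosed_le continuous_Q continuous_const) ?_
  refine (Metric.isBounded_closedBall (x := (0 : Fin (n + 1) → ℝ)) (r := 1)).subset ?_
  intro x hx
  rw [mem_closedBall_zero_iff, pi_norm_le_iff_of_nonneg zero_le_one]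
  intro i
  rw [Real.norm_eq_abs, ← sq_le_one_iff_abs_le_one]
  exact (sq_le_Q x i).trans hx

instance : CompactSpace (Ball n) := isCompact_iff_compactSpace.1 isCompact_Ball

theorem Q_convex {a b : Fin (n + 1) → ℝ} {s : ℝ} (h0 : 0 ≤ s) (h1 : s ≤ 1) :
    Q ((1 - s) • a + s • b) ≤ (1 - s) * Q a + s * Q b := by
  unfold Q
  rw [Finset.mul_sum, Finset.mul_sum, ← Finset.sum_add_distrib]
  refine Finset.sum_le_sum fun i _ => ?_
  simp only [Pi.add_apply, Pi.smul_apply, smul_eq_mul]
  have h2 : 0 ≤ (1 - s) * s := mul_nonneg (by linarith) h0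
  nlinarith [mul_nonneg h2 (sq_nonneg (a i - b i))]

theorem refl_add (x y : Fin (n + 1) → ℝ) : refl (x + y) = refl x + refl y := by
  funext i
  unfold refl
  simp only [Pi.add_apply]
  split_ifs <;> ring

theorem refl_sub (x y : Fin (n + 1) → ℝ) : refl (x - y) = refl x - refl y := by
  funext i
  unfold refl
  simp only [Pi.sub_apply]
  split_ifs <;> ring

/-- the midpoint map -/
noncomputable def mid (t : Ball n → Ball n) (x : Ball n) : Ball n :=
  ⟨(1 - (1 / 2 : ℝ)) • x.1 + (1 / 2 : ℝ) • refl (t x).1, by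
    have h1 : Q x.1 ≤ 1 := x.2
    have h2 : Q (t x).1 ≤ 1 := (t x).2
    have h3 := Q_convex (a := x.1) (b := refl (t x).1) (s := 1 / 2) (by norm_num) (by norm_num)
    rw [Q_refl] at h3
    change Q _ ≤ 1
    linarith⟩

theorem mid_cont {t : Ball n → Ball n} (hc : Continuous t) : Continuous (mid t) := by
  refine Continuous.subtype_mk ?_ _
  have h1 : Continuous fun x : Ball n => refl (t x).1 :=
    continuous_refl.comp (continuous_subtype_val.comp hc)
  have h2 : Continuous fun x : Ball n => (x.1 : Fin (n + 1) → ℝ) := continuous_subtype_val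
  exact (h2.const_smul (1 - (1 / 2 : ℝ))).add (h1.const_smul (1 / 2 : ℝ))

/-- involutions which are close to the linear one are conjugate to it -/
theorem conj_of_close (t : Ball n → Ball n) (hc : Continuous t) (hi : ∀ x, t (t x) = x)
    (hb : ∀ x : Ball n, Q x.1 = 1 → (t x).1 = refl x.1)
    (hl : ∀ x y : Ball n, x ≠ y →
      Q (((t x).1 - refl x.1) - ((t y).1 - refl y.1)) < 4 * Q (x.1 - y.1)) :
    ∃ f : Ball n ≃ₜ Ball n, (∀ x : Ball n, Q x.1 = 1 → f x = x) ∧
      ∀ x, (f (t x)).1 = refl (f x).1 := by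
  have hinj : Function.Injective (mid t) := by
    intro x y hxy
    by_contra hne
    have h1 := hl x y hne
    have h2 : (1 - (1 / 2 : ℝ)) • x.1 + (1 / 2 : ℝ) • refl (t x).1 =
      (1 - (1 / 2 : ℝ)) • y.1 + (1 / 2 : ℝ) • refl (t y).1 := congrArg Subtype.val hxy
    have h3 : (t x).1 - refl x.1 - ((t y).1 - refl y.1) = (-2 : ℝ) • refl (x.1 - y.1) := by
      have h4 : refl (t x).1 - refl (t y).1 = -(x.1 - y.1) := by
        funext i
        have h5 := congrFun h2 i
        simp only [Pi.add_apply, Pi.smul_apply, smul_eq_mul] at h5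
        simp only [Pi.sub_apply, Pi.neg_apply]
        linarith
      have h6 : (t x).1 - (t y).1 = - refl (x.1 - y.1) := by
        have h7 := congrArg refl h4
        rw [← refl_sub, refl_refl] at h7
        rw [h7]
        funext i
        unfold refl
        simp only [Pi.neg_apply, Pi.sub_apply]
        split_ifs <;> rfl
      funext i
      have h8 := congrFun h6 i
      rw [refl_sub] at h8 ⊢
      simp only [Pi.sub_apply, Pi.neg_apply, Pi.smul_apply, smul_eq_mul] at h8 ⊢
      linarith
    rw [h3, Q_smul, Q_refl] at h1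
    linarith
  have hsurj : Function.Surjective (mid t) := by
    intro y
    have hD : Continuous fun x : Ball n => Q ((mid t x).1 - y.1) :=
      continuous_Q.comp ((continuous_subtype_val.comp (mid_cont hc)).sub continuous_const)
    obtain ⟨x0, _, hx0⟩ := isCompact_univ.exists_isMinOn ⟨y, mem_univ y⟩ hD.continuousOn
    have hmin : ∀ x : Ball n, Q ((mid t x0).1 - y.1) ≤ Q ((mid t x).1 - y.1) := fun x =>
      hx0 (mem_univ x)
    refine ⟨x0, ?_⟩
    by_contra hne
    have hw : 0 < Q (y.1 - (mid t x0).1) := by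
      refine lt_of_le_of_ne (Q_nonneg _) fun h => hne ?_
      have h1 := Q_eq_zero h.symm
      exact Subtype.ext (sub_eq_zero.1 h1).symm
    have hQx0 : Q x0.1 ≤ 1 := x0.2
    -- a point in the direction of the error
    obtain ⟨s, hs0, hs1, hsB⟩ : ∃ s : ℝ, 0 < s ∧ s ≤ 1 ∧
        x0.1 + s • (y.1 - (mid t x0).1) ∈ Ball n := by
      rcases eq_or_lt_of_le hQx0 with h | h
      · refine ⟨1, one_pos, le_refl _, ?_⟩
        have h1 : (mid t x0).1 = x0.1 := by
          unfold mid
          simp only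
          rw [hb x0 h, refl_refl]
          funext i
          simp only [Pi.add_apply, Pi.smul_apply, smul_eq_mul]
          ring
        rw [h1, one_smul, add_sub_cancel]
        exact y.2
      · set M := Q (x0.1 + (y.1 - (mid t x0).1)) with hM
        have hM0 : 0 ≤ M := Q_nonneg _
        have hs : (1 - Q x0.1) / (1 + M) ≤ 1 := by
          rw [div_le_one (by linarith)]
          linarith [Q_nonneg x0.1]
        have hs' : 0 < (1 - Q x0.1) / (1 + M) := div_pos (by linarith) (by linarith)
        refine ⟨(1 - Q x0.1) / (1 + M), hs', hs, ?_⟩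
        have h1 := Q_convex (a := x0.1) (b := x0.1 + (y.1 - (mid t x0).1)) hs'.le hs
        have h2 : (1 - (1 - Q x0.1) / (1 + M)) • x0.1 +
            ((1 - Q x0.1) / (1 + M)) • (x0.1 + (y.1 - (mid t x0).1)) =
            x0.1 + ((1 - Q x0.1) / (1 + M)) • (y.1 - (mid t x0).1) := by
          funext i
          simp only [Pi.add_apply, Pi.smul_apply, smul_eq_mul, Pi.sub_apply]
          ring
        rw [h2, ← hM] at h1
        change Q _ ≤ 1
        refine h1.trans ?_
        have h3 : (1 - Q x0.1) / (1 + M) * (1 + M) = 1 - Q x0.1 :=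
          div_mul_cancel₀ _ (by linarith)
        nlinarith [mul_nonneg hs'.le (Q_nonneg x0.1)]
    -- the comparison
    have h1 := hmin ⟨_, hsB⟩
    have hne1 : (⟨_, hsB⟩ : Ball n) ≠ x0 := by
      intro h
      have h2 : x0.1 + s • (y.1 - (mid t x0).1) = x0.1 := congrArg Subtype.val h
      have h3 : s • (y.1 - (mid t x0).1) = 0 := by
        rwa [add_eq_left] at h2
      rcases smul_eq_zero.1 h3 with h4 | h4
      · exact hs0.ne' h4
      · rw [h4] at hw
        unfold Q at hw
        simp at hw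
    have h2 := hl _ _ hne1
    generalize hx1 : (⟨_, hsB⟩ : Ball n) = x1 at h1 h2
    have hx1v : x1.1 = x0.1 + s • (y.1 - (mid t x0).1) := by rw [← hx1]
    have h3 : x1.1 - x0.1 = s • (y.1 - (mid t x0).1) := by
      rw [hx1v, add_sub_cancel_left]
    rw [h3, Q_smul] at h2
    have h4 : (mid t x1).1 - y.1 = (1 - s) • (-(y.1 - (mid t x0).1)) +
        s • (s⁻¹ • ((1 / 2 : ℝ) • refl (((t x1).1 - refl x1.1) - ((t x0).1 - refl x0.1)))) := by
      rw [smul_inv_smul₀ hs0.ne', refl_sub, refl_sub, refl_sub, refl_refl, refl_refl]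
      have h5 : (mid t x1).1 = (1 - (1 / 2 : ℝ)) • x1.1 + (1 / 2 : ℝ) • refl (t x1).1 := rfl
      have h6 : (mid t x0).1 = (1 - (1 / 2 : ℝ)) • x0.1 + (1 / 2 : ℝ) • refl (t x0).1 := rfl
      funext i
      have h7 := congrFun h5 i
      have h8 := congrFun h6 i
      have h9 := congrFun hx1v i
      simp only [Pi.add_apply, Pi.smul_apply, smul_eq_mul, Pi.sub_apply, Pi.neg_apply] at h7 h8 h9 ⊢
      rw [h7]
      linear_combination h9 - h8
    rw [h4] at h1
    have h5 := Q_convex (a := -(y.1 - (mid t x0).1)) (b := s⁻¹ • ((1 / 2 : ℝ) •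
      refl (((t x1).1 - refl x1.1) - ((t x0).1 - refl x0.1)))) hs0.le hs1
    have h6 : Q (-(y.1 - (mid t x0).1)) = Q (y.1 - (mid t x0).1) := by
      rw [← neg_one_smul ℝ, Q_smul]
      norm_num
    have h7 : Q ((mid t x0).1 - y.1) = Q (y.1 - (mid t x0).1) := by
      rw [← neg_sub, ← neg_one_smul ℝ, Q_smul]
      norm_num
    have h8 : Q (s⁻¹ • ((1 / 2 : ℝ) •
        refl (((t x1).1 - refl x1.1) - ((t x0).1 - refl x0.1)))) < Q (y.1 - (mid t x0).1) := by
      rw [Q_smul, Q_smul, Q_refl, inv_pow, inv_mul_lt_iff₀ (by positivity)]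
      linarith
    rw [h6] at h5
    rw [h7] at h1
    nlinarith
  refine ⟨(mid_cont hc).homeoOfEquivCompactToT2 (f := Equiv.ofBijective (mid t) ⟨hinj, hsurj⟩),
    ?_, ?_⟩
  · intro x hx
    refine Subtype.ext ?_
    change (1 - (1 / 2 : ℝ)) • x.1 + (1 / 2 : ℝ) • refl (t x).1 = x.1
    rw [hb x hx, refl_refl]
    funext i
    simp only [Pi.add_apply, Pi.smul_apply, smul_eq_mul]
    ring
  · intro x
    change (1 - (1 / 2 : ℝ)) • (t x).1 + (1 / 2 : ℝ) • refl (t (t x)).1 =
      refl ((1 - (1 / 2 : ℝ)) • x.1 + (1 / 2 : ℝ) • refl (t x).1)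
    rw [hi, refl_add, refl_smul, refl_smul, refl_refl]
    funext i
    simp only [Pi.add_apply, Pi.smul_apply, smul_eq_mul]
    ring

end Pool.Agent.FlatFlag
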