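import Pool.Agent.Lib.FlatFlag.E

/-!
# The equivalence
-/

set_option autoImplicit false

open Set Filter Topology

namespace Pool.Agent.FlatFlag

variable {n : ℕ}

theorem std_std (x : Ball n) : std (std x) = x := Subtype.ext (refl_refl x.1)

theorem std_sub {j : ℕ} {x : Ball n} (h : x ∈ Sub n j) : std x ∈ Sub n j := by
  intro i hi
  change refl x.1 i = 0
  unfold refl
  rw [h i hi]
  simp

/-- agreement on an equatorial ball gives a conjugacy -/
theorem conj_of_equator (hn : 1 ≤ n) (t : Ball n → Ball n) (hc : Continuous t)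
    (hi : ∀ x, t (t x) = x) (hb : ∀ x : Ball n, Q x.1 = 1 → t x = std x) (p : Ball n ≃ₜ Ball n)
    (hp : ∀ x : Ball n, Q x.1 = 1 → p x = x)
    (he : ∀ x ∈ Sub n 1, t (p x) = p (std x)) :
    ∃ f : Ball n ≃ₜ Ball n, (∀ x : Ball n, Q x.1 = 1 → f x = x) ∧
      ∀ x, f (t x) = std (f x) := by
  have hps : ∀ x : Ball n, Q x.1 = 1 → p.symm x = x := by
    intro x hx
    conv_lhs => rw [← hp x hx]
    exact p.symm_apply_apply x
  have hs : Inv n 0 (glob fun x => p.symm (t (p x))) := by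
    refine ⟨?_, ?_, ?_, ?_⟩
    · rw [flag_zero]
      exact glob_cont (p.symm.continuous.comp (hc.comp p.continuous))
    · rw [flag_zero]
      intro x hx
      rw [show x = (⟨x, hx⟩ : Ball n).1 from rfl, glob_apply]
      exact Subtype.coe_prop _
    · rw [flag_zero]
      intro x hx
      rw [show x = (⟨x, hx⟩ : Ball n).1 from rfl, glob_apply, glob_apply, p.apply_symm_apply, hi,
        p.symm_apply_apply]
    · rw [flag_zero]
      intro x hx hQ
      rw [show x = (⟨x, hx⟩ : Ball n).1 from rfl, glob_apply, hp ⟨x, hx⟩ hQ]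
      have h1 := hb ⟨x, hx⟩ hQ
      have h2 : Q (t ⟨x, hx⟩).1 = 1 := by
        rw [h1]
        exact (Q_refl x).trans hQ
      rw [hps _ h2, h1]
      rfl
  obtain ⟨f, g, hfg, hfb, hfe⟩ := half (j := 0) (by omega) hs (by
    intro x hx
    have hxB : x ∈ Ball n := hx.1
    rw [show x = (⟨x, hxB⟩ : Ball n).1 from rfl, glob_apply, he ⟨x, hxB⟩ hx.2,
      p.symm_apply_apply]
    rfl)
  rw [flag_zero] at hfg hfb hfe
  refine ⟨p.symm.trans (mkHomeo hfg), ?_, ?_⟩
  · intro x hx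
    refine Subtype.ext ?_
    change f (p.symm x).1 = x.1
    rw [hps x hx, hfb x.1 x.2 hx]
  · intro x
    refine Subtype.ext ?_
    change f (p.symm (t x)).1 = refl (f (p.symm x).1)
    rw [← hfe _ (p.symm x).2, glob_apply, p.apply_symm_apply]

/-- the equivalence of the four conditions -/
theorem tfae (hn : 1 ≤ n) (t : Ball n → Ball n) (hc : Continuous t)
    (hi : ∀ x, t (t x) = x) (hb : ∀ x : Ball n, Q x.1 = 1 → t x = std x) :
    [∃ f : Ball n ≃ₜ Ball n, (∀ x : Ball n, Q (f x).1 = 1 ↔ Q x.1 = 1) ∧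
        ∀ x, f (t x) = std (f x),
      ∃ f : Ball n ≃ₜ Ball n, (∀ x : Ball n, Q x.1 = 1 → f x = x) ∧ ∀ x, f (t x) = std (f x),
      ∃ p : Ball n ≃ₜ Ball n, (∀ x : Ball n, Q x.1 = 1 → p x = x) ∧
        ∀ x ∈ Sub n 1, t (p x) = p (std x),
      ∃ p : Ball n ≃ₜ Ball n, (∀ x : Ball n, Q x.1 = 1 → p x = x) ∧
        ∀ j ≤ n, MapsTo t (p '' Sub n j) (p '' Sub n j)].TFAE := by
  have hb' : ∀ x : Ball n, Q x.1 = 1 → (t x).1 = refl x.1 := fun x hx =>
    congrArg Subtype.val (hb x hx)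
  tfae_have 1 → 2 := by
    rintro ⟨f, hf, he⟩
    obtain ⟨f', hf', he'⟩ := conj_rel t hb' f hf fun x => congrArg Subtype.val (he x)
    exact ⟨f', hf', fun x => Subtype.ext (he' x)⟩
  tfae_have 2 → 1 := by
    rintro ⟨f, hf, he⟩
    refine ⟨f, fun x => ⟨fun h => ?_, fun h => by rw [hf x h]; exact h⟩, he⟩
    have h1 := f.injective (hf _ h)
    rw [h1] at h
    exact h
  tfae_have 2 → 3 := by
    rintro ⟨f, hf, he⟩
    refine ⟨f.symm, fun x hx => ?_, fun x _ => ?_⟩
    · conv_lhs => rw [← hf x hx]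
      exact f.symm_apply_apply x
    · rw [f.eq_symm_apply, he, f.apply_symm_apply]
  tfae_have 3 → 2 := by
    rintro ⟨p, hp, he⟩
    exact conj_of_equator hn t hc hi hb p hp he
  tfae_have 2 → 4 := by
    rintro ⟨f, hf, he⟩
    refine ⟨f.symm, fun x hx => ?_, ?_⟩
    · conv_lhs => rw [← hf x hx]
      exact f.symm_apply_apply x
    · rintro j _ _ ⟨x, hx, rfl⟩
      refine ⟨std x, std_sub hx, ?_⟩
      rw [f.symm_apply_eq, he, f.apply_symm_apply]
  tfae_have 4 → 2 := by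
    rintro ⟨p, hp, hflag⟩
    obtain ⟨f, hf, he⟩ := conj_of_flat_flag t hc hi hb' p hp (by
      intro j hj x hx
      obtain ⟨y, hy, hy'⟩ := hflag j hj ⟨x, hx, rfl⟩
      rw [← hy', p.symm_apply_apply]
      exact hy)
    exact ⟨f, hf, fun x => Subtype.ext (he x)⟩
  tfae_finish

end Pool.Agent.FlatFlag
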